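import Pool.Agent.Helper75_AEU3.Mvp
import Pool.Agent.Helper27_AEU3.Mvp3

/-!
AEU, Part III, K:MVP: the complete statement (part 3 by helper27).
-/

namespace Pool.Agent.H60K.H75

theorem mvp : MvpStatement := mvp_of H27.mvp3

end Pool.Agent.H60K.H75

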