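import Pool.Agent.Helper60_AEU.Stmt

/-!
AEU, Part III, K:MVP, parts 1 and 2: circle means of plane waves, scaling and rotation.
-/

namespace Pool.Agent.H60K.H75

open MeasureTheory Complex Filter Topology ProbabilityTheory Pool.Agent.H16Iso Pool.Agent.H62T
  Pool.Agent.H16F Pool.Agent.H38KL Pool.Agent.H60K
open scoped ENNReal NNReal

theorem exp_re_arg (x y v τ : ℝ) :
    Real.exp (-(x * Real.cosh v)) * Real.cos (y * Real.sinh v - τ * v) =
      (Complex.exp (-(x * Real.cosh v : ℝ) + (y * Real.sinh v - τ * v : ℝ) * I)).re := by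
  rw [Complex.exp_re]
  simp only [Complex.add_re, Complex.neg_re, Complex.ofReal_re, Complex.mul_re, Complex.I_re,
    Complex.I_im, Complex.ofReal_im, Complex.add_im, Complex.neg_im, Complex.mul_im, mul_zero,
    mul_one, sub_zero, add_zero, zero_add, neg_zero]

/-- the circle mean of `exp (-ρ cos (φ + i v))` -/
theorem circle_mean (ρ v : ℝ) :
    ∫ φ in (0 : ℝ)..(2 * Real.pi), Complex.exp (-(ρ * Complex.cos (φ + v * I))) =
      ((2 * Real.pi * I0 ρ : ℝ) : ℂ) := by
  have hd : Differentiable ℂ (fun w : ℂ => Complex.exp (-(ρ * Complex.cos w))) := by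
    intro w
    exact ((Complex.differentiable_cos w).const_mul (ρ : ℂ)).neg.cexp
  have h1 := Complex.integral_boundary_rect_eq_zero_of_differentiableOn
    (fun w : ℂ => Complex.exp (-(ρ * Complex.cos w))) 0 (2 * Real.pi + v * I) hd.differentiableOn
  have e1 : (0 : ℂ).re = 0 := rfl
  have e2 : (0 : ℂ).im = 0 := rfl
  have e3 : (2 * Real.pi + v * I : ℂ).re = 2 * Real.pi := by simp
  have e4 : (2 * Real.pi + v * I : ℂ).im = v := by simp
  rw [e1, e2, e3, e4] at h1
  have h2 : ∀ y : ℝ, Complex.exp (-(ρ * Complex.cos (((2 * Real.pi : ℝ) : ℂ) + y * I))) =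
      Complex.exp (-(ρ * Complex.cos (((0 : ℝ) : ℂ) + y * I))) := by
    intro y
    have : Complex.cos (((2 * Real.pi : ℝ) : ℂ) + y * I) = Complex.cos (((0 : ℝ) : ℂ) + y * I) := by
      have h := Complex.cos_periodic (((0 : ℝ) : ℂ) + y * I)
      rw [← h]
      congr 1
      push_cast
      ring
    rw [this]
  simp only [h2] at h1
  have h3 : ∫ φ in (0 : ℝ)..(2 * Real.pi), Complex.exp (-(ρ * Complex.cos (φ + v * I))) =
      ∫ φ in (0 : ℝ)..(2 * Real.pi), Complex.exp (-(ρ * Complex.cos (φ + ((0 : ℝ) : ℂ) * I))) := by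
    have := h1
    simp only [add_sub_cancel_right] at this
    rw [sub_eq_zero] at this
    exact this.symm
  rw [h3]
  have h4 : ∀ φ : ℝ, Complex.exp (-(ρ * Complex.cos (φ + ((0 : ℝ) : ℂ) * I))) =
      ((Real.exp (-(ρ * Real.cos φ)) : ℝ) : ℂ) := by
    intro φ
    push_cast
    simp
  simp only [h4]
  rw [intervalIntegral.integral_ofReal]
  congr 1
  unfold I0
  rw [← mul_assoc, mul_one_div_cancel (by positivity), one_mul]
  -- shift by pi
  have hper : Function.Periodic (fun φ : ℝ => Real.exp (ρ * Real.cos φ)) (2 * Real.pi) := by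
    intro φ
    simp only [Real.cos_add_two_pi]
  have h5 := hper.intervalIntegral_add_eq Real.pi 0
  rw [zero_add] at h5
  rw [← h5]
  have h6 := intervalIntegral.integral_comp_add_right (a := 0) (b := 2 * Real.pi)
    (fun φ : ℝ => Real.exp (ρ * Real.cos φ)) Real.pi
  rw [zero_add, add_comm (2 * Real.pi) Real.pi] at h6
  rw [← h6]
  refine intervalIntegral.integral_congr fun φ _ => ?_
  simp only [Real.cos_add_pi]
  congr 1
  ring

/-- the integrand on the circle -/
noncomputable def Fc (z : ℂ) (ρ τ φ v : ℝ) : ℝ :=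
  Real.exp (-((z.re + ρ * Real.cos φ) * Real.cosh v)) *
    Real.cos ((z.im + ρ * Real.sin φ) * Real.sinh v - τ * v)

theorem Fc_inner (z : ℂ) (ρ τ v : ℝ) :
    ∫ φ in (0 : ℝ)..(2 * Real.pi), Fc z ρ τ φ v =
      2 * Real.pi * I0 ρ *
        (Real.exp (-(z.re * Real.cosh v)) * Real.cos (z.im * Real.sinh v - τ * v)) := by
  have e : ∀ φ : ℝ, Fc z ρ τ φ v =
      (Complex.exp (-(z.re * Real.cosh v : ℝ) + (z.im * Real.sinh v - τ * v : ℝ) * I) *
        Complex.exp (-(ρ * Complex.cos (φ + v * I)))).re := by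
    intro φ
    unfold Fc
    rw [exp_re_arg, ← Complex.exp_add, Complex.cos_add, Complex.cos_mul_I, Complex.sin_mul_I]
    congr 2
    push_cast
    ring
  simp only [e]
  have hc : Continuous (fun φ : ℝ =>
      Complex.exp (-(z.re * Real.cosh v : ℝ) + (z.im * Real.sinh v - τ * v : ℝ) * I) *
        Complex.exp (-(ρ * Complex.cos (φ + v * I)))) := by fun_prop
  have h1 := Complex.reCLM.intervalIntegral_comp_comm (hc.intervalIntegrable 0 (2 * Real.pi))
    (μ := volume)
  simp only [Complex.reCLM_apply] at h1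
  rw [h1, intervalIntegral.integral_const_mul, circle_mean, mul_comm, Complex.re_ofReal_mul,
    exp_re_arg]

theorem Fc_integrable {z : ℂ} {ρ : ℝ} (hρ : 0 < ρ) (hz : ρ < z.re) (τ : ℝ) :
    Integrable (fun p : ℝ × ℝ => Fc z ρ τ p.1 p.2)
      ((volume.restrict (Set.Ioc 0 (2 * Real.pi))).prod volume) := by
  have h1 : Integrable (fun p : ℝ × ℝ => (1 : ℝ) * Real.exp (-((z.re - ρ) * Real.cosh p.2)))
      ((volume.restrict (Set.Ioc 0 (2 * Real.pi))).prod volume) :=
    (integrable_const (1 : ℝ)).mul_prod (intg_exp_cosh (sub_pos.2 hz))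
  refine h1.mono' ?_ (Filter.Eventually.of_forall fun p => ?_)
  · unfold Fc
    fun_prop
  · unfold Fc
    rw [norm_mul, Real.norm_eq_abs, Real.norm_eq_abs, abs_of_pos (Real.exp_pos _), one_mul]
    calc _ ≤ Real.exp (-((z.re + ρ * Real.cos p.1) * Real.cosh p.2)) * 1 :=
          mul_le_mul_of_nonneg_left (Real.abs_cos_le_one _) (Real.exp_pos _).le
      _ ≤ _ := by
          rw [mul_one]
          refine Real.exp_le_exp.2 (neg_le_neg ?_)
          refine mul_le_mul_of_nonneg_right ?_ (Real.cosh_pos _).le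
          nlinarith [Real.neg_one_le_cos p.1]

/-- K:MVP, part 1 -/
theorem mvp1 : ∀ τ : ℝ, MVP 1 {z | 0 < z.re} (pw τ) := by
  intro τ z ρ hρ hball
  have hz : ρ < z.re := by
    have h1 : z - ρ ∈ Metric.closedBall z ρ := by
      rw [Metric.mem_closedBall, Complex.dist_eq]
      simp [abs_of_pos hρ]
    have h2 : 0 < (z - ρ : ℂ).re := hball h1
    simp at h2
    exact h2
  have hpw : ∀ φ : ℝ, pw τ (z + ρ * Complex.exp (φ * I)) = 1 / 2 * ∫ v : ℝ, Fc z ρ τ φ v := by
    intro φ
    unfold pw Fc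
    have e1 : (z + ρ * Complex.exp (φ * I)).re = z.re + ρ * Real.cos φ := by
      rw [Complex.add_re, Complex.re_ofReal_mul, Complex.exp_ofReal_mul_I_re]
    have e2 : (z + ρ * Complex.exp (φ * I)).im = z.im + ρ * Real.sin φ := by
      rw [Complex.add_im, Complex.im_ofReal_mul, Complex.exp_ofReal_mul_I_im]
    rw [e1, e2]
  have hint := Fc_integrable hρ hz τ
  have h2pi : (0 : ℝ) ≤ 2 * Real.pi := by positivity
  simp only [hpw]
  constructor
  · rw [intervalIntegrable_iff_integrableOn_Ioc_of_le h2pi]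
    exact (hint.integral_prod_left).const_mul _
  · rw [intervalIntegral.integral_const_mul, intervalIntegral.integral_of_le h2pi,
      integral_integral_swap hint]
    simp only [← intervalIntegral.integral_of_le h2pi, Fc_inner]
    rw [integral_const_mul, one_mul]
    unfold pw
    ring

/-- K:MVP, part 2 -/
theorem mvp2 : ∀ (κ : ℝ) (c : ℂ) (W : Set ℂ) (v : ℂ → ℝ), 0 < κ → ‖c‖ = 1 → MVP 1 W v →
    MVP κ {z | (κ : ℂ) * c * z ∈ W} (fun z => v ((κ : ℂ) * c * z)) := by
  intro κ c W v hκ hc hv z ρ hρ hball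
  have hball' : Metric.closedBall ((κ : ℂ) * c * z) (κ * ρ) ⊆ W := by
    intro w hw
    have hk : (κ : ℂ) * c ≠ 0 := by
      refine mul_ne_zero (by exact_mod_cast hκ.ne') ?_
      rw [← norm_ne_zero_iff, hc]
      exact one_ne_zero
    have h1 : w / ((κ : ℂ) * c) ∈ Metric.closedBall z ρ := by
      rw [Metric.mem_closedBall, Complex.dist_eq] at hw ⊢
      have e : w / ((κ : ℂ) * c) - z = (w - (κ : ℂ) * c * z) / ((κ : ℂ) * c) := by
        rw [eq_div_iff hk, sub_mul, div_mul_cancel₀ _ hk, mul_comm z]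
      rw [e, norm_div, norm_mul, hc, mul_one, Complex.norm_real, Real.norm_eq_abs,
        abs_of_pos hκ, div_le_iff₀ hκ]
      linarith
    have h2 := hball h1
    change (κ : ℂ) * c * (w / ((κ : ℂ) * c)) ∈ W at h2
    rwa [mul_div_cancel₀ _ hk] at h2
  obtain ⟨h1, h2⟩ := hv _ (κ * ρ) (mul_pos hκ hρ) hball'
  obtain ⟨α, hα⟩ : ∃ α : ℝ, c = Complex.exp (α * I) := by
    refine ⟨Complex.arg c, ?_⟩
    have := Complex.norm_mul_exp_arg_mul_I c
    rw [hc, Complex.ofReal_one, one_mul] at this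
    exact this.symm
  set g : ℝ → ℝ := fun φ => v ((κ : ℂ) * c * z + ((κ * ρ : ℝ) : ℂ) * Complex.exp (φ * I)) with hg
  have hper : Function.Periodic g (2 * Real.pi) := by
    intro φ
    simp only [hg]
    congr 3
    push_cast
    rw [add_mul, Complex.exp_add, Complex.exp_two_pi_mul_I, mul_one]
  have e : ∀ φ : ℝ, v ((κ : ℂ) * c * (z + ρ * Complex.exp (φ * I))) = g (φ + α) := by
    intro φ
    simp only [hg]
    congr 1
    push_cast
    rw [add_mul, Complex.exp_add, ← hα]
    ring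
  simp only [e]
  constructor
  · have h3 : IntervalIntegrable g volume (0 + α) (2 * Real.pi + α) :=
      hper.intervalIntegrable (t := 0) (by positivity) (by rwa [zero_add]) _ _
    have h4 := h3.comp_add_right α
    rwa [add_sub_cancel_right, add_sub_cancel_right] at h4
  · rw [intervalIntegral.integral_comp_add_right (fun φ => g φ) α, zero_add,
      add_comm (2 * Real.pi) α, hper.intervalIntegral_add_eq α 0, zero_add, h2, one_mul]

/-- K:MVP from part 3 (helper27) -/
theorem mvp_of (h3 : ∀ (κ : ℝ) (W : Set ℂ) (v : ℂ → ℝ), 0 < κ → IsOpen W → Measurable v →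
    (∀ K : Set ℂ, IsCompact K → K ⊆ W → ∃ M : ℝ, ∀ z ∈ K, |v z| ≤ M) → MVP κ W v →
    LMP (κ ^ 2) W v) : MvpStatement := ⟨mvp1, mvp2, h3⟩

end Pool.Agent.H60K.H75
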